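import Pool.Agent.Q74.GO.Stm3

set_option autoImplicit false

/-! Project GO (helper74), job Five: five consecutive integers can be separated linearly. -/

namespace Pool.Agent.Q178.GO

open Finset
open Pool.Agent.Q74.KP Pool.Agent.Q74.SF Pool.Agent.Q74.GO
open Pool.Agent.Q74.AR (oc oc_per Td ocd exists_inv ocd_eq Td_shift)
open Pool.Agent.Q158.Pair (T)

theorem ocd_succ (d : ℤ) (t : ℕ) (x : ℤ) : ocd d (t + 1) x = (if x % 2 = 1 then 1 else 0) + ocd d t (Td d x) := by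
  unfold ocd
  rw [card_filter, card_filter, sum_range_succ', add_comm]
  rfl

theorem ocd_zero (d x : ℤ) : ocd d 0 x = 0 := by simp [ocd]

theorem ocd_add (d : ℤ) (s r : ℕ) : ∀ x : ℤ, ocd d (s + r) x = ocd d s x + ocd d r ((Td d)^[s] x) := by
  induction s with
  | zero => intro x; simp [ocd_zero]
  | succ s ih =>
    intro x
    rw [show s + 1 + r = (s + r) + 1 by omega, ocd_succ, ocd_succ, ih, Function.iterate_succ_apply]
    ring

/-- the end of the trajectory and the number of the odd terms -/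
def run (d : ℤ) : ℕ → ℤ → ℕ → ℤ × ℕ
  | 0, x, o => (x, o)
  | t + 1, x, o => run d t (Td d x) (if x % 2 = 1 then o + 1 else o)

theorem run_eq (d : ℤ) (t : ℕ) : ∀ (x : ℤ) (o : ℕ), run d t x o = ((Td d)^[t] x, o + ocd d t x) := by
  induction t with
  | zero => intro x o; simp [run, ocd_zero]
  | succ t ih =>
    intro x o
    rw [run, ih, Function.iterate_succ_apply, ocd_succ]
    congr 1
    split_ifs <;> omega

theorem run_spec {d : ℤ} {t : ℕ} {x y : ℤ} {o : ℕ} (h : run d t x 0 = (y, o)) : (Td d)^[t] x = y ∧ ocd d t x = o := by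
  rw [run_eq, Prod.mk.injEq, zero_add] at h
  exact h

/-- a cycle -/
theorem cyc {d : ℤ} {l : ℕ} {v : ℤ} {p : ℕ} (h1 : (Td d)^[l] v = v) (h2 : ocd d l v = p) (m : ℕ) :
    (Td d)^[l * m] v = v ∧ ocd d (l * m) v = p * m := by
  induction m with
  | zero => simp [ocd_zero]
  | succ m ih =>
    rw [show l * (m + 1) = l * m + l by ring, ocd_add, ih.1, ih.2, h2, add_comm (l * m) l,
      Function.iterate_add_apply, ih.1, h1]
    exact ⟨rfl, by ring⟩

theorem shift {d : ℤ} (hd : d % 2 = 1) (s : ℕ) (X j : ℤ) :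
    (Td d)^[s] (X + 2 ^ s * j) = (Td d)^[s] X + 3 ^ ocd d s X * j ∧ ocd d s (X + 2 ^ s * j) = ocd d s X := by
  obtain ⟨u, κ, _, hu⟩ := exists_inv hd s
  rw [Td_shift hd hu, ocd_eq hd hu, ocd_eq hd hu]
  refine ⟨rfl, ?_⟩
  rw [show u * (X + 2 ^ s * j) = u * X + 2 ^ s * (u * j) by ring, oc_per]

theorem ocd_of_zero (d : ℤ) (t : ℕ) : ocd d t 0 = 0 := by
  have h : Td d 0 = 0 := by simp [Td]
  induction t with
  | zero => exact ocd_zero d 0
  | succ t ih => rw [ocd_succ, h, ih]; simp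

theorem ocd_le (d : ℤ) (t : ℕ) (x : ℤ) : ocd d t x ≤ t := by
  unfold ocd
  refine (card_filter_le _ _).trans ?_
  rw [card_range]

theorem start (n v : ℤ) (o0 l p c : ℕ) (h1 : run 2423 88 n 0 = (v, o0)) (h2 : run 2423 l v 0 = (v, p))
    (hc : l * c = 497001810) (r : ℕ) :
    (Td 2423)^[88 + 497001810 * r] n = v ∧ ocd 2423 (88 + 497001810 * r) n = o0 + p * (c * r) := by
  obtain ⟨a1, a2⟩ := run_spec h1
  obtain ⟨b1, b2⟩ := run_spec h2
  obtain ⟨c1, c2⟩ := cyc b1 b2 (c * r)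
  have e : 497001810 * r = l * (c * r) := by rw [← hc]; ring
  rw [e, ocd_add, a1, a2, c2, add_comm 88, Function.iterate_add_apply, a1, c1]
  exact ⟨rfl, rfl⟩

theorem cp0 : run 2423 88 2338 0 = (4489, 46) := by decide +kernel
theorem cp1 : run 2423 88 4761 0 = (3775, 47) := by decide +kernel
theorem cp2 : run 2423 88 7184 0 = (21860, 49) := by decide +kernel
theorem cp3 : run 2423 88 9607 0 = (7150, 45) := by decide +kernel
theorem cp4 : run 2423 88 12030 0 = (5005, 50) := by decide +kernel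
theorem cq0 : run 2423 190 4489 0 = (4489, 99) := by decide +kernel
theorem cq1 : run 2423 89 3775 0 = (3775, 40) := by decide +kernel
theorem cq2 : run 2423 291 21860 0 = (21860, 158) := by decide +kernel
theorem cq3 : run 2423 101 7150 0 = (7150, 59) := by decide +kernel
theorem cq4 : run 2423 291 5005 0 = (5005, 158) := by decide +kernel
theorem cqw : run 2423 11 (-60575) 0 = (-60575, 7) := by decide +kernel

theorem key_num (r s s' o0 o1 o2 o3 o4 d0 d1 d3 : ℕ) (_hr : 1 ≤ r) (hs : s = 88 + 497001810 * r)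
    (hs' : s' = 11 * (400000 * r)) (h0 : o0 = 46 + 99 * (89 * 291 * 101 * r) + d0)
    (h1 : o1 = 47 + 40 * (190 * 291 * 101 * r) + d1) (h2 : o2 = 49 + 158 * (190 * 89 * 101 * r) + 0)
    (h3 : o3 = 45 + 59 * (190 * 89 * 291 * r) + d3) (h4 : o4 = 50 + 158 * (190 * 89 * 101 * r) + 7 * (400000 * r))
    (k0 : d0 ≤ s') (k1 : d1 ≤ s') (k3 : d3 ≤ s') :
    ∀ i j : Fin 5, i ≠ j → ((s + s' : ℕ) : ℤ) ≤
      200 * |(((![o0, o1, o2, o3, o4] : Fin 5 → ℕ) i : ℕ) : ℤ) - (((![o0, o1, o2, o3, o4] : Fin 5 → ℕ) j : ℕ) : ℤ)| := by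
  have P : ∀ a b : ℕ, s + s' + 200 * a ≤ 200 * b → ((s + s' : ℕ) : ℤ) ≤ 200 * |(a : ℤ) - (b : ℤ)| ∧
      ((s + s' : ℕ) : ℤ) ≤ 200 * |(b : ℤ) - (a : ℤ)| := by
    intro a b h
    have e1 := neg_le_abs ((a : ℤ) - b)
    have e2 := le_abs_self ((b : ℤ) - a)
    have e3 : ((s + s' + 200 * a : ℕ) : ℤ) ≤ ((200 * b : ℕ) : ℤ) := by exact_mod_cast h
    push_cast at e3 ⊢
    constructor <;> linarith
  have p10 := P o1 o0 (by omega)
  have p12 := P o1 o2 (by omega)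
  have p13 := P o1 o3 (by omega)
  have p14 := P o1 o4 (by omega)
  have p02 := P o0 o2 (by omega)
  have p03 := P o0 o3 (by omega)
  have p04 := P o0 o4 (by omega)
  have p24 := P o2 o4 (by omega)
  have p23 := P o2 o3 (by omega)
  have p43 := P o4 o3 (by omega)
  intro i j hij
  fin_cases i <;> fin_cases j
  · exact absurd rfl hij
  · exact p10.2
  · exact p02.1
  · exact p03.1
  · exact p04.1
  · exact p10.1
  · exact absurd rfl hij
  · exact p12.1
  · exact p13.1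
  · exact p14.1
  · exact p02.2
  · exact p12.2
  · exact absurd rfl hij
  · exact p23.1
  · exact p24.1
  · exact p03.2
  · exact p13.2
  · exact p23.2
  · exact absurd rfl hij
  · exact p43.2
  · exact p04.2
  · exact p14.2
  · exact p24.2
  · exact p43.1
  · exact absurd rfl hij

theorem five : S_Five := by
  intro S₀
  obtain ⟨r, hr⟩ : ∃ r, r = S₀ + 1 := ⟨_, rfl⟩
  obtain ⟨s, hs⟩ : ∃ s, s = 88 + 497001810 * r := ⟨_, rfl⟩
  obtain ⟨s', hs'⟩ : ∃ s', s' = 11 * (400000 * r) := ⟨_, rfl⟩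
  have hd : (2423 : ℤ) % 2 = 1 := by norm_num
  obtain ⟨a0, b0⟩ := start 2338 4489 46 190 99 (89 * 291 * 101) cp0 cq0 (by norm_num) r
  obtain ⟨a1, b1⟩ := start 4761 3775 47 89 40 (190 * 291 * 101) cp1 cq1 (by norm_num) r
  obtain ⟨a2, b2⟩ := start 7184 21860 49 291 158 (190 * 89 * 101) cp2 cq2 (by norm_num) r
  obtain ⟨a3, b3⟩ := start 9607 7150 45 101 59 (190 * 89 * 291) cp3 cq3 (by norm_num) r
  obtain ⟨a4, b4⟩ := start 12030 5005 50 291 158 (190 * 89 * 101) cp4 cq4 (by norm_num) r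
  rw [← hs] at a0 b0 a1 b1 a2 b2 a3 b3 a4 b4
  -- the second stage
  obtain ⟨u, e, hu⟩ : ∃ u e : ℤ, 3 ^ ocd 2423 s 7184 * u + 21860 = 2 ^ s' * e := by
    obtain ⟨w, κ, _, hw⟩ := exists_inv (show (3 : ℤ) ^ ocd 2423 s 7184 % 2 = 1 by
      exact Int.odd_iff.1 (Odd.pow (by decide))) s'
    exact ⟨w * (-21860), κ * 21860, by linear_combination (-21860) * hw⟩
  obtain ⟨w, κ, _, hw⟩ := exists_inv hd (s + s')
  obtain ⟨x, hx⟩ : ∃ x : ℤ, x = w * (2338 + 2 ^ s * u) := ⟨_, rfl⟩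
  have hoc : ∀ i : ℤ, oc (s + s') (x + i) = ocd 2423 s (2338 + 2423 * i) +
      ocd 2423 s' ((Td 2423)^[s] (2338 + 2423 * i) + 3 ^ ocd 2423 s (2338 + 2423 * i) * u) := by
    intro i
    have h1 := ocd_eq hd hw ((2338 + 2423 * i) + 2 ^ s * u)
    have h2 : w * ((2338 + 2423 * i) + 2 ^ s * u) = x + i + 2 ^ (s + s') * (-(κ * i)) := by
      rw [hx]
      linear_combination i * hw
    rw [h2, oc_per] at h1
    rw [← h1, ocd_add, (shift hd s (2338 + 2423 * i) u).1, (shift hd s (2338 + 2423 * i) u).2]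
  have L0 := hoc 0
  have L1 := hoc 1
  have L2 := hoc 2
  have L3 := hoc 3
  have L4 := hoc 4
  norm_num at L0 L1 L2 L3 L4
  rw [a0, b0] at L0
  rw [a1, b1] at L1
  rw [a2] at L2
  rw [a3, b3] at L3
  rw [a4] at L4
  have g2 : (21860 : ℤ) + 3 ^ ocd 2423 s 7184 * u = 0 + 2 ^ s' * e := by linear_combination hu
  have g4 : (5005 : ℤ) + 3 ^ ocd 2423 s 12030 * u = -60575 + 2 ^ s' * (3 * e) := by
    rw [b4]
    rw [b2] at hu
    have e1 : 50 + 158 * (190 * 89 * 101 * r) = (49 + 158 * (190 * 89 * 101 * r)) + 1 := by ring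
    rw [e1, pow_succ]
    linear_combination 3 * hu
  rw [g2, (shift hd s' 0 e).2, ocd_of_zero, b2] at L2
  obtain ⟨w1, w2⟩ := run_spec cqw
  have w3 := (cyc w1 w2 (400000 * r)).2
  rw [g4, (shift hd s' (-60575) (3 * e)).2] at L4
  rw [← hs'] at w3
  rw [w3, b4] at L4
  have δ0 := ocd_le 2423 s' (4489 + 3 ^ (46 + 99 * (89 * 291 * 101 * r)) * u)
  have δ1 := ocd_le 2423 s' (3775 + 3 ^ (47 + 40 * (190 * 291 * 101 * r)) * u)
  have δ3 := ocd_le 2423 s' (7150 + 3 ^ (45 + 59 * (190 * 89 * 291 * r)) * u)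
  refine ⟨s + s', by omega, x, ?_⟩
  have hLv : ∀ i : Fin 5, Lv (fun _ => 0) (cs 5) (s + s') x i = (oc (s + s') (x + ((i : ℕ) : ℤ)) : ℤ) := by
    intro i
    unfold Lv yy cs
    rw [pow_zero, one_mul, Nat.cast_zero, zero_add]
  intro i j hij
  rw [hLv, hLv]
  have key : ((s + s' : ℕ) : ℤ) ≤ 200 * |((oc (s + s') (x + ((i : ℕ) : ℤ)) : ℤ)) - (oc (s + s') (x + ((j : ℕ) : ℤ)) : ℤ)| := by
    have hkn := key_num r s s' _ _ _ _ _ _ _ _ (by omega) hs hs' L0 L1 L2 L3 L4 δ0 δ1 δ3 i j hij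
    have hval : ∀ i : Fin 5, (oc (s + s') (x + ((i : ℕ) : ℤ))) =
        (![oc (s + s') x, oc (s + s') (x + 1), oc (s + s') (x + 2), oc (s + s') (x + 3), oc (s + s') (x + 4)] : Fin 5 → ℕ) i := by
      intro i
      fin_cases i
      · show oc (s + s') (x + ((0 : ℕ) : ℤ)) = oc (s + s') x
        rw [Nat.cast_zero, add_zero]
      · show oc (s + s') (x + ((1 : ℕ) : ℤ)) = oc (s + s') (x + 1)
        rw [Nat.cast_one]
      · show oc (s + s') (x + ((2 : ℕ) : ℤ)) = oc (s + s') (x + 2)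
        rw [Nat.cast_ofNat]
      · show oc (s + s') (x + ((3 : ℕ) : ℤ)) = oc (s + s') (x + 3)
        rw [Nat.cast_ofNat]
      · show oc (s + s') (x + ((4 : ℕ) : ℤ)) = oc (s + s') (x + 4)
        rw [Nat.cast_ofNat]
    rw [hval i, hval j]
    exact hkn
  have key' : ((s + s' : ℕ) : ℝ) ≤ 200 * |((oc (s + s') (x + ((i : ℕ) : ℤ)) : ℝ)) - (oc (s + s') (x + ((j : ℕ) : ℤ)) : ℝ)| := by
    exact_mod_cast key
  push_cast at key' ⊢
  linarith

end Pool.Agent.Q178.GO
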