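import Pool.Agent.Q74.GO.Stm3

set_option autoImplicit false

/-! Project GO (helper74), job Lin: linearly separated classes give separated tuples. -/

namespace Pool.Agent.Q178.GO

open Finset Filter Topology
open Pool.Agent.Q74.KP Pool.Agent.Q74.SF Pool.Agent.Q74.GO
open Pool.Agent.Q74.AR (oc oc_le of of_zero of_succ of_nonneg oc_succ)
open Pool.Agent.Q158.Pair (T)

theorem of_le (t : ℕ) : ∀ x : ℤ, of t x ≤ 3 ^ oc t x := by
  induction t with
  | zero => intro x; rw [of_zero]; positivity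
  | succ t ih =>
    intro x
    rw [of_succ, oc_succ]
    have h := ih (T x)
    have h0 : (0:ℝ) < 3 ^ oc t (T x) := by positivity
    split_ifs with h1
    · have h2 : (3:ℝ) ^ oc t (T x) / 2 ^ (t + 1) ≤ 3 ^ oc t (T x) := by
        apply div_le_self h0.le
        exact one_le_pow₀ (by norm_num)
      have h3 : (3:ℝ) ^ (1 + oc t (T x)) = 3 * 3 ^ oc t (T x) := by rw [pow_add, pow_one]
      rw [h3]
      linarith
    · rw [zero_add]
      linarith

theorem lin : S_Lin := by
  intro k a b c hc hsep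
  obtain ⟨M, hM⟩ : ∃ M : ℕ, ∀ i, a i ≤ M := ⟨∑ i, a i, fun i => single_le_sum (fun _ _ => Nat.zero_le _) (mem_univ i)⟩
  obtain ⟨B, hB0, hB⟩ : ∃ B : ℝ, 0 ≤ B ∧ ∀ i, |(b i : ℝ)| ≤ B :=
    ⟨∑ i, |(b i : ℝ)|, sum_nonneg fun _ _ => abs_nonneg _,
      fun i => single_le_sum (f := fun i => |(b i : ℝ)|) (fun _ _ => abs_nonneg _) (mem_univ i)⟩
  refine ⟨2 / c * (1 + M) + 1, by
    have : 0 ≤ 2 / c * (1 + (M:ℝ)) := by positivity
    linarith, fun ρ hρ N₀ => ?_⟩
  -- conditions on `S`
  have ht : Tendsto (fun S : ℕ => (S : ℝ)) atTop atTop := tendsto_natCast_atTop_atTop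
  have e1 := ht.eventually_ge_atTop (2 * ((N₀ : ℝ) + 2) / c)
  have e2 := ht.eventually_ge_atTop 1
  have e3 := ht.eventually_ge_atTop (((M : ℝ) + 1) * 2 + (2 * B + 2) * 1)
  have e4 := ht.eventually_ge_atTop (16 / (ρ * c ^ 2))
  obtain ⟨S₀, hS₀⟩ := eventually_atTop.1 (((e1.and e2).and e3).and e4)
  obtain ⟨S, hS, x, hx⟩ := hsep S₀
  obtain ⟨⟨⟨h1, h2⟩, h3⟩, h4⟩ := hS₀ S hS
  have hS0 : (0:ℝ) < S := by linarith
  have hcS : 2 * ((N₀ : ℝ) + 2) ≤ c * S := by
    rw [div_le_iff₀ hc] at h1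
    linarith
  set N := ⌊c * S⌋₊ with hN
  have hN1 : (N : ℝ) ≤ c * S := Nat.floor_le (by positivity)
  have hN2 : c * S < N + 1 := Nat.lt_floor_add_one _
  have hN0 : (0:ℝ) ≤ N₀ := Nat.cast_nonneg _
  have hN3 : c * S / 2 ≤ N := by linarith
  have hNN : (N₀ : ℝ) ≤ N := by linarith
  refine ⟨N, by exact_mod_cast hNN, S, x, ?_, ?_, ?_⟩
  · intro i j
    have g1 : (ca a b S x j : ℝ) ≤ M + S := by
      unfold ca
      have g2 : (a j : ℝ) ≤ M := by exact_mod_cast hM j
      have g3 : (oc S (yy a b j x) : ℝ) ≤ S := by exact_mod_cast oc_le S _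
      push_cast
      linarith
    have g4 : (0:ℝ) ≤ (ca a b S x i : ℝ) := Nat.cast_nonneg _
    have g5 : (M : ℝ) + S ≤ (1 + M) * S := by
      have : (0:ℝ) ≤ M := Nat.cast_nonneg _
      nlinarith
    have g6 : (1 + (M:ℝ)) * S = 2 / c * (1 + M) * (c * S / 2) := by field_simp
    have g7 : 2 / c * (1 + (M:ℝ)) * (c * S / 2) ≤ 2 / c * (1 + M) * N :=
      mul_le_mul_of_nonneg_left hN3 (by positivity)
    have g8 : (0:ℝ) ≤ N := Nat.cast_nonneg _
    nlinarith
  · intro i j hij
    have g1 := hx i j hij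
    have g2 : ∀ i, (Lv a b S x i : ℝ) = (ca a b S x i : ℝ) := by
      intro i
      unfold Lv ca
      push_cast
      rfl
    rw [g2, g2] at g1
    linarith
  · intro i j hij
    set D := ca a b S x j - ca a b S x i with hD
    have hDc : ca a b S x j = D + ca a b S x i := by omega
    have key : ∀ l, (cb a b S x l : ℝ) = 3 ^ oc S (yy a b l x) * ((3:ℝ) ^ a l * x + b l) / 2 ^ S + of S (yy a b l x) := by
      intro l
      unfold cb of yy
      push_cast
      ring
    have e5 : (cb a b S x j : ℝ) - 3 ^ D * (cb a b S x i : ℝ) =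
        (3 ^ oc S (yy a b j x) * (b j : ℝ) / 2 ^ S + of S (yy a b j x)) -
        3 ^ D * (3 ^ oc S (yy a b i x) * (b i : ℝ) / 2 ^ S + of S (yy a b i x)) := by
      have e6 : (3:ℝ) ^ (oc S (yy a b j x)) * 3 ^ a j = 3 ^ D * (3 ^ oc S (yy a b i x) * 3 ^ a i) := by
        rw [← pow_add, ← pow_add, ← pow_add]
        congr 1
        unfold ca at hDc
        omega
      rw [key, key]
      linear_combination (x / 2 ^ S) * e6
    rw [e5]
    have bd : ∀ l, |3 ^ oc S (yy a b l x) * (b l : ℝ) / 2 ^ S + of S (yy a b l x)| ≤ 3 ^ ca a b S x l * (B + 1) := by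
      intro l
      have p0 : (0:ℝ) < 3 ^ oc S (yy a b l x) := by positivity
      have p1 : (3:ℝ) ^ oc S (yy a b l x) ≤ 3 ^ ca a b S x l := by
        apply pow_le_pow_right₀ (by norm_num)
        unfold ca
        omega
      have p2 : |3 ^ oc S (yy a b l x) * (b l : ℝ) / 2 ^ S| ≤ 3 ^ oc S (yy a b l x) * B := by
        rw [abs_div, abs_mul, abs_of_pos p0, abs_of_pos (show (0:ℝ) < 2 ^ S by positivity)]
        refine (div_le_self (by positivity) (one_le_pow₀ (by norm_num))).trans ?_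
        exact mul_le_mul_of_nonneg_left (hB l) p0.le
      have p3 : |of S (yy a b l x)| ≤ 3 ^ oc S (yy a b l x) := by
        rw [abs_of_nonneg (of_nonneg S _)]
        exact of_le S _
      refine (abs_add_le _ _).trans ?_
      nlinarith
    refine (abs_sub _ _).trans ?_
    rw [abs_mul, abs_of_pos (show (0:ℝ) < 3 ^ D by positivity)]
    have q1 := bd j
    have q2 := mul_le_mul_of_nonneg_left (bd i) (show (0:ℝ) ≤ 3 ^ D by positivity)
    rw [hDc, pow_add] at q1
    have q3 : (3:ℝ) ^ ca a b S x i ≤ 3 ^ (M + S) := by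
      apply pow_le_pow_right₀ (by norm_num)
      unfold ca
      have := hM i
      have := oc_le S (yy a b i x)
      omega
    have q4 : (3:ℝ) ^ (M + S) * (2 * B + 2) ≤ Real.exp (ρ * (N : ℝ) ^ 2) := by
      have r1 : (3:ℝ) ^ (M + S) ≤ Real.exp (2 * (M + S)) := by
        have : (3:ℝ) ≤ Real.exp 2 := by
          have := Real.add_one_le_exp (2:ℝ)
          linarith
        calc (3:ℝ) ^ (M + S) ≤ (Real.exp 2) ^ (M + S) := pow_le_pow_left₀ (by norm_num) this _
          _ = Real.exp (2 * (M + S)) := by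
              rw [← Real.exp_nat_mul]
              congr 1
              push_cast
              ring
      have r2 : 2 * B + 2 ≤ Real.exp (2 * B + 2) := by
        have := Real.add_one_le_exp (2 * B + 2)
        linarith
      have r3 : 2 * ((M:ℝ) + S) + (2 * B + 2) ≤ 4 * S := by
        linarith
      have r4 : 4 * S ≤ ρ * (N:ℝ) ^ 2 := by
        have r5 : (c * S / 2) ^ 2 ≤ (N:ℝ) ^ 2 := pow_le_pow_left₀ (by positivity) hN3 2
        have r6 : 16 ≤ ρ * c ^ 2 * S := by
          rw [div_le_iff₀ (by positivity)] at h4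
          linarith
        have r7 := mul_le_mul_of_nonneg_left r5 hρ.le
        have r8 : ρ * (c * S / 2) ^ 2 = ρ * c ^ 2 * S * S / 4 := by ring
        have r9 : 16 * S ≤ ρ * c ^ 2 * S * S := mul_le_mul_of_nonneg_right r6 hS0.le
        linarith
      calc (3:ℝ) ^ (M + S) * (2 * B + 2) ≤ Real.exp (2 * (M + S)) * Real.exp (2 * B + 2) :=
            mul_le_mul r1 r2 (by positivity) (Real.exp_pos _).le
        _ = Real.exp (2 * (M + S) + (2 * B + 2)) := by rw [← Real.exp_add]
        _ ≤ Real.exp (ρ * (N : ℝ) ^ 2) := Real.exp_le_exp.2 (r3.trans r4)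
    have q5 : (3:ℝ) ^ D * 3 ^ ca a b S x i * (2 * B + 2) ≤ 3 ^ D * Real.exp (ρ * (N : ℝ) ^ 2) := by
      rw [mul_assoc]
      apply mul_le_mul_of_nonneg_left _ (by positivity)
      exact (mul_le_mul_of_nonneg_right q3 (by positivity)).trans q4
    linarith

end Pool.Agent.Q178.GO
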