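import Pool.Agent.Q74.GO.Stm3

set_option autoImplicit false

/-! Project GO (helper74), job Six: six consecutive integers. -/

namespace Pool.Agent.Q178.GO

open Finset
open Pool.Agent.Q74.KP Pool.Agent.Q74.SF Pool.Agent.Q74.GO
open Pool.Agent.Q74.AR (oc oc_per of_per of oc_even oc_odd oc_succ)
open Pool.Agent.Q158.Pair (T T_even T_odd)

theorem T_shift (t : ℕ) : ∀ x j : ℤ, T^[t] (x + 2 ^ t * j) = T^[t] x + 3 ^ oc t x * j := by
  induction t with
  | zero => intro x j; simp [oc]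
  | succ n ih =>
    intro x j
    rw [Function.iterate_succ_apply, Function.iterate_succ_apply]
    rcases Int.even_or_odd' x with ⟨m, rfl | rfl⟩
    · have e : 2 * m + 2 ^ (n + 1) * j = 2 * (m + 2 ^ n * j) := by ring
      rw [e, T_even, T_even, oc_even, ih]
    · have e : 2 * m + 1 + 2 ^ (n + 1) * j = 2 * (m + 2 ^ n * j) + 1 := by ring
      have e2 : 3 * (m + 2 ^ n * j) + 2 = (3 * m + 2) + 2 ^ n * (3 * j) := by ring
      rw [e, T_odd, T_odd, oc_odd, e2, ih, pow_add]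
      ring

theorem Vv_cs (k t : ℕ) (n : ℤ) (i : Fin k) :
    Vv (fun _ : Fin k => 0) (cs k) t n i = ((oc t (n + ((i : ℕ) : ℤ)) : ℤ), T^[t] (n + ((i : ℕ) : ℤ))) := by
  unfold Vv Lv yy cs
  simp

theorem fin_check : ∀ r : Fin 16, r ≠ 13 → ∃ i j : Fin 6, i ≠ j ∧
    oc 4 (((r : ℕ) : ℤ) + ((i : ℕ) : ℤ)) = oc 4 (((r : ℕ) : ℤ) + ((j : ℕ) : ℤ)) ∧
    T^[4] (((r : ℕ) : ℤ) + ((i : ℕ) : ℤ)) = T^[4] (((r : ℕ) : ℤ) + ((j : ℕ) : ℤ)) := by
  decide

theorem merge_shift (m x y : ℤ) (h1 : oc 4 x = oc 4 y) (h2 : T^[4] x = T^[4] y) :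
    oc 4 (x + 2 ^ 4 * m) = oc 4 (y + 2 ^ 4 * m) ∧ T^[4] (x + 2 ^ 4 * m) = T^[4] (y + 2 ^ 4 * m) := by
  rw [oc_per, oc_per, T_shift, T_shift, h1, h2]
  exact ⟨rfl, rfl⟩

/-- residue of `n` -/
theorem res (n : ℤ) : ∃ (r : Fin 16) (m : ℤ), n = ((r : ℕ) : ℤ) + 2 ^ 4 * m := by
  refine ⟨⟨(n % 16).toNat, by omega⟩, n / 16, ?_⟩
  simp only
  rw [Int.toNat_of_nonneg (by omega)]
  omega

theorem not_inj_of (k : ℕ) (hk : 6 ≤ k) (t : ℕ) (ht : 4 ≤ t) (n : ℤ) (r : Fin 16) (m : ℤ) (hr : r ≠ 13)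
    (hn : n = ((r : ℕ) : ℤ) + 2 ^ 4 * m) : ¬ Function.Injective (Vv (fun _ : Fin k => 0) (cs k) t n) := by
  intro hinj
  obtain ⟨i, j, hij, h1, h2⟩ := fin_check r hr
  have h3 := merge_shift m _ _ h1 h2
  obtain ⟨d, rfl⟩ := Nat.exists_eq_add_of_le ht
  have h4 : Vv (fun _ : Fin k => 0) (cs k) 4 n ⟨i, by omega⟩ = Vv (fun _ : Fin k => 0) (cs k) 4 n ⟨j, by omega⟩ := by
    rw [Vv_cs, Vv_cs, hn]
    simp only
    have e1 : ((r : ℕ) : ℤ) + 2 ^ 4 * m + ((i : ℕ) : ℤ) = ((r : ℕ) : ℤ) + ((i : ℕ) : ℤ) + 2 ^ 4 * m := by ring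
    have e2 : ((r : ℕ) : ℤ) + 2 ^ 4 * m + ((j : ℕ) : ℤ) = ((r : ℕ) : ℤ) + ((j : ℕ) : ℤ) + 2 ^ 4 * m := by ring
    rw [e1, e2, h3.1, h3.2]
  have h5 := hinj (Vv_later _ _ 4 d n h4)
  apply hij
  apply Fin.ext
  simpa using congrArg Fin.val h5

theorem T_neg_one : ∀ t : ℕ, T^[t] (-1) = -1 ∧ oc t (-1) = t := by
  intro t
  induction t with
  | zero => simp [oc]
  | succ t ih =>
    have h1 : T (-1) = -1 := by decide
    rw [Function.iterate_succ_apply, h1, oc_succ, h1, ih.1, ih.2]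
    refine ⟨rfl, ?_⟩
    rw [if_pos (by decide)]
    omega

theorem T_neg_two (t : ℕ) : T^[t + 1] (-2) = -1 ∧ oc (t + 1) (-2) = t := by
  have h1 : T (-2) = -1 := by decide
  rw [Function.iterate_succ_apply, h1, oc_succ, h1, (T_neg_one t).1, (T_neg_one t).2]
  refine ⟨rfl, ?_⟩
  rw [if_neg (by decide)]
  omega

theorem T_neg_three (t : ℕ) : T^[t + 3] (-3) = -1 ∧ oc (t + 3) (-3) = t + 1 := by
  have h1 : T (-3) = -4 := by decide
  have h2 : T (-4) = -2 := by decide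
  rw [Function.iterate_succ_apply, h1, oc_succ, h1, Function.iterate_succ_apply, h2, oc_succ, h2,
    (T_neg_two t).1, (T_neg_two t).2]
  refine ⟨rfl, ?_⟩
  rw [if_pos (by decide), if_neg (by decide)]
  omega

theorem three_merge (v : ℕ) (hv : 4 ≤ v) (m : ℤ) (hm : m % 2 = 1) :
    (oc (v + 2) (-3 + 2 ^ v * m) = oc (v + 2) (-2 + 2 ^ v * m) ∧
      T^[v + 2] (-3 + 2 ^ v * m) = T^[v + 2] (-2 + 2 ^ v * m)) ∨
    (oc (v + 2) (-2 + 2 ^ v * m) = oc (v + 2) (-1 + 2 ^ v * m) ∧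
      T^[v + 2] (-2 + 2 ^ v * m) = T^[v + 2] (-1 + 2 ^ v * m)) := by
  obtain ⟨w, rfl⟩ : ∃ w, v = w + 3 := ⟨v - 3, by omega⟩
  obtain ⟨a1, a2⟩ := T_neg_three w
  obtain ⟨b1, b2⟩ := T_neg_two (w + 2)
  obtain ⟨c1, c2⟩ := T_neg_one (w + 3)
  have hodd : ((3:ℤ) ^ (w + 1) * m) % 2 = 1 := by
    have h1 : Odd ((3:ℤ) ^ (w + 1) * m) := (Odd.pow (by decide)).mul (Int.odd_iff.2 hm)
    exact Int.odd_iff.1 h1
  obtain ⟨y, hy⟩ : ∃ y, (3:ℤ) ^ (w + 1) * m = 2 * y + 1 := ⟨((3:ℤ) ^ (w + 1) * m) / 2, by omega⟩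
  have A1 : T^[w + 3] (-3 + 2 ^ (w + 3) * m) = 2 * y := by
    rw [T_shift, a1, a2, hy]; ring
  have A2 : oc (w + 3) (-3 + 2 ^ (w + 3) * m) = w + 1 := by rw [oc_per, a2]
  have B1 : T^[w + 3] (-2 + 2 ^ (w + 3) * m) = 2 * (3 * y + 1) := by
    rw [T_shift]
    rw [show w + 3 = w + 2 + 1 by omega, b1, b2, pow_succ]
    linear_combination 3 * hy
  have B2 : oc (w + 3) (-2 + 2 ^ (w + 3) * m) = w + 2 := by
    rw [oc_per]
    exact b2
  have C1 : T^[w + 3] (-1 + 2 ^ (w + 3) * m) = 2 * (9 * y + 4) := by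
    rw [T_shift, c1, c2]
    have : (3:ℤ) ^ (w + 3) * m = 9 * (3 ^ (w + 1) * m) := by ring
    rw [this, hy]; ring
  have C2 : oc (w + 3) (-1 + 2 ^ (w + 3) * m) = w + 3 := by rw [oc_per, c2]
  have it : ∀ x : ℤ, T^[w + 3 + 2] x = T (T (T^[w + 3] x)) := by
    intro x
    rw [show w + 3 + 2 = (w + 3 + 1) + 1 by omega, Function.iterate_succ_apply', Function.iterate_succ_apply']
  have oc2 : ∀ x : ℤ, oc (w + 3 + 2) x = oc (w + 3) x + oc 2 (T^[w + 3] x) := by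
    intro x
    have gen : ∀ (s r : ℕ) (x : ℤ), oc (s + r) x = oc s x + oc r (T^[s] x) := by
      intro s
      induction s with
      | zero => intro r x; simp [oc]
      | succ s ih =>
        intro r x
        rw [show s + 1 + r = (s + r) + 1 by omega, oc_succ, oc_succ, ih, Function.iterate_succ_apply]
        ring
    exact gen _ _ _
  rw [it, it, it, oc2, oc2, oc2, A1, A2, B1, B2, C1, C2, T_even, T_even, T_even]
  have o2 : ∀ z : ℤ, oc 2 (2 * z) = if z % 2 = 1 then 1 else 0 := by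
    intro z
    rw [show (2:ℕ) = 1 + 1 by rfl, oc_even]
    simp [oc]
  rw [o2, o2, o2]
  rcases Int.even_or_odd' y with ⟨z, hz | hz⟩
  · right
    constructor
    · rw [if_pos (by omega), if_neg (by omega)]
    · have e1 : 3 * y + 1 = 2 * (3 * z) + 1 := by rw [hz]; ring
      have e2 : 9 * y + 4 = 2 * (9 * z + 2) := by rw [hz]; ring
      rw [e1, e2, T_odd, T_even]
      ring
  · left
    constructor
    · rw [if_pos (by omega), if_neg (by omega)]
    · have e1 : y = 2 * z + 1 := hz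
      have e2 : 3 * y + 1 = 2 * (3 * z + 2) := by rw [hz]; ring
      rw [e2, T_even, e1, T_odd]

theorem six : S_Six := by
  constructor
  · intro t n ht hinj
    obtain ⟨r, m, hn⟩ := res n
    by_cases hr : r = 13
    · subst hr
      by_cases h3 : n + 3 = 0
      · rw [h3]
        exact dvd_zero _
      · obtain ⟨v, m', hm', hv⟩ : ∃ (v : ℕ) (m' : ℤ), m' % 2 = 1 ∧ n + 3 = 2 ^ v * m' := by
          have hfin : FiniteMultiplicity (2:ℤ) (n + 3) := Int.finiteMultiplicity_iff.2 ⟨by decide, h3⟩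
          obtain ⟨m', hv, hm'⟩ := hfin.exists_eq_pow_mul_and_not_dvd
          exact ⟨_, m', by omega, hv⟩
        have h16 : (16:ℤ) ∣ n + 3 := by
          refine ⟨m + 1, ?_⟩
          rw [hn]
          have : (((13 : Fin 16) : ℕ) : ℤ) = 13 := rfl
          rw [this]
          ring
        have hv4 : 4 ≤ v := by
          by_contra hlt
          push Not at hlt
          have h5 : ¬ (16:ℤ) ∣ 2 ^ v * m' := by
            interval_cases v <;> omega
          rw [hv] at h16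
          exact h5 h16
        have hn' : n = -3 + 2 ^ v * m' := by linarith
        have htv : t ≤ v + 1 := by
          by_contra hlt
          push Not at hlt
          obtain ⟨d, hd⟩ := Nat.exists_eq_add_of_le (show v + 2 ≤ t by omega)
          have hm := three_merge v hv4 m' hm'
          have e0 : n + (((0 : Fin 6) : ℕ) : ℤ) = -3 + 2 ^ v * m' := by
            rw [hn']
            have : (((0 : Fin 6) : ℕ) : ℤ) = 0 := rfl
            rw [this]; ring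
          have e1 : n + (((1 : Fin 6) : ℕ) : ℤ) = -2 + 2 ^ v * m' := by
            rw [hn']
            have : (((1 : Fin 6) : ℕ) : ℤ) = 1 := rfl
            rw [this]; ring
          have e2 : n + (((2 : Fin 6) : ℕ) : ℤ) = -1 + 2 ^ v * m' := by
            rw [hn']
            have : (((2 : Fin 6) : ℕ) : ℤ) = 2 := rfl
            rw [this]; ring
          rcases hm with ⟨h1, h2⟩ | ⟨h1, h2⟩
          · have h4 : Vv (fun _ : Fin 6 => 0) (cs 6) (v + 2) n 0 = Vv (fun _ : Fin 6 => 0) (cs 6) (v + 2) n 1 := by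
              rw [Vv_cs, Vv_cs, e0, e1, h1, h2]
            have h5 := Vv_later _ _ (v + 2) d n h4
            rw [← hd] at h5
            exact absurd (hinj h5) (by decide)
          · have h4 : Vv (fun _ : Fin 6 => 0) (cs 6) (v + 2) n 1 = Vv (fun _ : Fin 6 => 0) (cs 6) (v + 2) n 2 := by
              rw [Vv_cs, Vv_cs, e1, e2, h1, h2]
            have h5 := Vv_later _ _ (v + 2) d n h4
            rw [← hd] at h5
            exact absurd (hinj h5) (by decide)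
        rw [hv]
        exact (pow_dvd_pow 2 (by omega)).mul_right m'
    · exact absurd hinj (not_inj_of 6 le_rfl t ht n r m hr hn)
  · intro t n ht hinj
    obtain ⟨r, m, hn⟩ := res n
    by_cases hr : r = 13
    · subst hr
      have h1 : oc 4 ((13:ℤ) + 5) = oc 4 ((13:ℤ) + 6) := by decide
      have h2 : T^[4] ((13:ℤ) + 5) = T^[4] ((13:ℤ) + 6) := by decide
      have h3 := merge_shift m _ _ h1 h2
      obtain ⟨d, rfl⟩ := Nat.exists_eq_add_of_le ht
      have h4 : Vv (fun _ : Fin 7 => 0) (cs 7) 4 n 5 = Vv (fun _ : Fin 7 => 0) (cs 7) 4 n 6 := by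
        rw [Vv_cs, Vv_cs, hn]
        have e1 : (((13 : Fin 16) : ℕ) : ℤ) + 2 ^ 4 * m + (((5 : Fin 7) : ℕ) : ℤ) = 13 + 5 + 2 ^ 4 * m := by
          have a1 : (((13 : Fin 16) : ℕ) : ℤ) = 13 := rfl
          have a2 : (((5 : Fin 7) : ℕ) : ℤ) = 5 := rfl
          rw [a1, a2]; ring
        have e2 : (((13 : Fin 16) : ℕ) : ℤ) + 2 ^ 4 * m + (((6 : Fin 7) : ℕ) : ℤ) = 13 + 6 + 2 ^ 4 * m := by
          have a1 : (((13 : Fin 16) : ℕ) : ℤ) = 13 := rfl
          have a2 : (((6 : Fin 7) : ℕ) : ℤ) = 6 := rfl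
          rw [a1, a2]; ring
        rw [e1, e2, h3.1, h3.2]
      exact absurd (hinj (Vv_later _ _ 4 d n h4)) (by decide)
    · exact not_inj_of 7 (by norm_num) t ht n r m hr hn hinj

end Pool.Agent.Q178.GO
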